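import Mathlib
import Pool.Agent.H332R2.CastLem

/-!
Padé approximants of the truncated exponential series modulo `p`.
-/

open Finset Polynomial

namespace Pool.Agent.Q21.HP

open Pool.Agent.H332R2

variable {p : ℕ} [hp : Fact p.Prime]

/-- the falling factorial polynomial -/
noncomputable def ff (p : ℕ) (k : ℕ) : (ZMod p)[X] := ∏ i ∈ range k, (X - C (i : ZMod p))

lemma ff_eval (k n : ℕ) : (ff p k).eval (n : ZMod p) = ((n.descFactorial k : ℕ) : ZMod p) := by
  induction k with
  | zero => simp [ff]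
  | succ k ih =>
    unfold ff at ih ⊢
    rw [prod_range_succ, eval_mul, ih, Nat.descFactorial_succ]
    rcases Nat.lt_or_ge n k with h | h
    · rw [Nat.descFactorial_eq_zero_iff_lt.mpr h]
      simp
    · rw [Nat.cast_mul, Nat.cast_sub h]
      simp
      ring

lemma ff_eval' {k n : ℕ} (hk : k ≤ n) (hn : n < p) :
    (ff p k).eval (n : ZMod p) =
      ((n.factorial : ℕ) : ZMod p) * ((((n - k).factorial : ℕ) : ZMod p))⁻¹ := by
  rw [ff_eval, ← Nat.factorial_mul_descFactorial hk, Nat.cast_mul]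
  have h := fact_ne_zero (p := p) (k := n - k) (by omega)
  field_simp

lemma ff_monic (k : ℕ) : (ff p k).Monic := monic_prod_of_monic _ _ fun _ _ => monic_X_sub_C _

lemma ff_natDegree (k : ℕ) : (ff p k).natDegree = k := by
  unfold ff
  rw [natDegree_prod_of_monic _ _ fun _ _ => monic_X_sub_C _]
  simp only [natDegree_X_sub_C, sum_const, card_range, smul_eq_mul, mul_one]

lemma ff_coeff_self (k : ℕ) : (ff p k).coeff k = 1 := by
  have h := (ff_monic (p := p) k).coeff_natDegree
  rwa [ff_natDegree] at h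

lemma ff_coeff_lt {k n : ℕ} (h : k < n) : (ff p k).coeff n = 0 :=
  coeff_eq_zero_of_natDegree_lt (by rw [ff_natDegree]; exact h)

lemma ff_coeff_pred {k : ℕ} (h : 0 < k) :
    (ff p k).coeff (k - 1) = - ∑ i ∈ range k, (i : ZMod p) := by
  have h1 := prod_X_sub_C_coeff_card_pred (range k) (fun i : ℕ => (i : ZMod p)) (by simpa using h)
  rwa [card_range] at h1

/-- the Newton polynomial of the sequence `A` -/
noncomputable def RR (p : ℕ) (A : ℕ → ZMod p) (d : ℕ) : (ZMod p)[X] :=
  ∑ k ∈ range (d + 1), C (A k) * ff p k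

lemma RR_coeff_top (A : ℕ → ZMod p) (d : ℕ) : (RR p A d).coeff d = A d := by
  unfold RR
  rw [finsetSum_coeff, sum_range_succ, sum_eq_zero, zero_add, coeff_C_mul, ff_coeff_self, mul_one]
  intro k hk
  rw [mem_range] at hk
  rw [coeff_C_mul, ff_coeff_lt hk, mul_zero]

lemma RR_coeff_gt (A : ℕ → ZMod p) {d n : ℕ} (h : d < n) : (RR p A d).coeff n = 0 := by
  unfold RR
  rw [finsetSum_coeff, sum_eq_zero]
  intro k hk
  rw [mem_range] at hk
  rw [coeff_C_mul, ff_coeff_lt (by omega), mul_zero]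

lemma RR_coeff_pred (A : ℕ → ZMod p) {d : ℕ} (hd : 0 < d) :
    (RR p A d).coeff (d - 1) = A (d - 1) - A d * ∑ i ∈ range d, (i : ZMod p) := by
  obtain ⟨e, rfl⟩ : ∃ e, d = e + 1 := ⟨d - 1, by omega⟩
  unfold RR
  rw [finsetSum_coeff, sum_range_succ, sum_range_succ, sum_eq_zero, coeff_C_mul, coeff_C_mul,
    ff_coeff_pred (Nat.succ_pos e)]
  · simp only [Nat.add_sub_cancel, ff_coeff_self]
    ring
  · intro k hk
    rw [mem_range] at hk
    rw [coeff_C_mul, ff_coeff_lt (by omega), mul_zero]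

lemma RR_zero (A : ℕ → ZMod p) (d : ℕ) (h : RR p A d = 0) : ∀ k ≤ d, A k = 0 := by
  induction d with
  | zero =>
    intro k hk
    have h1 := RR_coeff_top (p := p) A 0
    rw [h] at h1
    have : k = 0 := by omega
    rw [this, ← h1]; simp
  | succ d ih =>
    have h1 := RR_coeff_top (p := p) A (d + 1)
    rw [h, coeff_zero] at h1
    have h2 : RR p A d = 0 := by
      have : RR p A (d + 1) = RR p A d + C (A (d + 1)) * ff p (d + 1) := by
        unfold RR
        rw [sum_range_succ]
      rw [this, ← h1] at h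
      simpa using h
    intro k hk
    rcases Nat.lt_or_ge d k with h3 | h3
    · have : k = d + 1 := by omega
      rw [this, ← h1]
    · exact ih h2 k h3

lemma RR_eval (A : ℕ → ZMod p) {d n : ℕ} (hdn : d < n) (hn : n < p)
    (h : ∑ k ∈ range (d + 1), A k * ((((n - k).factorial : ℕ) : ZMod p))⁻¹ = 0) :
    (RR p A d).eval (n : ZMod p) = 0 := by
  unfold RR
  rw [eval_finsetSum]
  have : ∀ k ∈ range (d + 1), (C (A k) * ff p k).eval (n : ZMod p) =
      ((n.factorial : ℕ) : ZMod p) * (A k * ((((n - k).factorial : ℕ) : ZMod p))⁻¹) := by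
    intro k hk
    rw [mem_range] at hk
    rw [eval_mul, eval_C, ff_eval' (by omega) hn]
    ring
  rw [sum_congr rfl this, ← mul_sum, h, mul_zero]

lemma cast_inj {a b : ℕ} (ha : a < p) (hb : b < p) (h : (a : ZMod p) = b) : a = b := by
  rw [ZMod.natCast_eq_natCast_iff'] at h
  rwa [Nat.mod_eq_of_lt ha, Nat.mod_eq_of_lt hb] at h

/-- normality -/
theorem pade0 (A : ℕ → ZMod p) (d L : ℕ) (hL : L ≤ p) (h2 : 2 * d + 2 ≤ L)
    (h : ∀ n, d < n → n < L →
      ∑ k ∈ range (d + 1), A k * ((((n - k).factorial : ℕ) : ZMod p))⁻¹ = 0) :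
    ∀ k ≤ d, A k = 0 := by
  apply RR_zero
  let Z : Finset (ZMod p) := (Ioo d L).image (fun n : ℕ => (n : ZMod p))
  have hZ : Z.card = L - d - 1 := by
    rw [card_image_of_injOn, Nat.card_Ioo]
    intro a ha b hb hab
    simp only [coe_Ioo, Set.mem_Ioo] at ha hb
    exact cast_inj (by omega) (by omega) hab
  apply Polynomial.eq_zero_of_natDegree_lt_card_of_eval_eq_zero' _ Z
  · intro z hz
    obtain ⟨n, hn, rfl⟩ := mem_image.mp hz
    rw [mem_Ioo] at hn
    exact RR_eval A hn.1 (by omega) (h n hn.1 hn.2)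
  · rw [hZ]
    have : (RR p A d).natDegree ≤ d := by
      rw [natDegree_le_iff_coeff_eq_zero]
      intro N hN
      exact RR_coeff_gt A hN
    omega

theorem pade1 (A : ℕ → ZMod p) (d L : ℕ) (hL : L ≤ p) (h2 : 2 * d + 1 ≤ L) (hd : 0 < d)
    (h : ∀ n, d < n → n < L →
      ∑ k ∈ range (d + 1), A k * ((((n - k).factorial : ℕ) : ZMod p))⁻¹ = 0)
    (hA : A (d - 1) = 0) :
    ∀ k ≤ d, A k = 0 := by
  let Q : (ZMod p)[X] := ∏ i ∈ range d, (X - C (((d + 1 + i : ℕ)) : ZMod p))
  have hQm : Q.Monic := monic_prod_of_monic _ _ fun _ _ => monic_X_sub_C _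
  have hQd : Q.natDegree = d := by
    change (∏ i ∈ range d, (X - C (((d + 1 + i : ℕ)) : ZMod p))).natDegree = d
    rw [natDegree_prod_of_monic _ _ fun _ _ => monic_X_sub_C _]
    simp only [natDegree_X_sub_C, sum_const, card_range, smul_eq_mul, mul_one]
  have hQ1 : Q.coeff d = 1 := by
    have := hQm.coeff_natDegree
    rwa [hQd] at this
  have hQ2 : Q.coeff (d - 1) = - ∑ i ∈ range d, ((d + 1 + i : ℕ) : ZMod p) := by
    have h1 := prod_X_sub_C_coeff_card_pred (range d) (fun i : ℕ => ((d + 1 + i : ℕ) : ZMod p))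
      (by simpa using hd)
    rwa [card_range] at h1
  have hS : RR p A d - C (A d) * Q = 0 := by
    let Z : Finset (ZMod p) := (range d).image (fun i : ℕ => ((d + 1 + i : ℕ) : ZMod p))
    have hZ : Z.card = d := by
      rw [card_image_of_injOn, card_range]
      intro a ha b hb hab
      simp only [coe_range, Set.mem_Iio] at ha hb
      have := cast_inj (p := p) (by omega) (by omega) hab
      omega
    apply Polynomial.eq_zero_of_natDegree_lt_card_of_eval_eq_zero' _ Z
    · intro z hz
      obtain ⟨i, hi, rfl⟩ := mem_image.mp hz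
      rw [mem_range] at hi
      rw [eval_sub, RR_eval A (by omega) (by omega) (h _ (by omega) (by omega)), eval_mul]
      have : Q.eval (((d + 1 + i : ℕ)) : ZMod p) = 0 := by
        change (∏ i ∈ range d, (X - C (((d + 1 + i : ℕ)) : ZMod p))).eval _ = 0
        rw [eval_prod]
        apply prod_eq_zero (mem_range.mpr hi)
        simp
      rw [this, mul_zero, sub_zero]
    · rw [hZ]
      have : (RR p A d - C (A d) * Q).natDegree ≤ d - 1 := by
        rw [natDegree_le_iff_coeff_eq_zero]
        intro N hN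
        rw [coeff_sub, coeff_C_mul]
        rcases Nat.lt_or_ge d N with h3 | h3
        · rw [RR_coeff_gt A h3, coeff_eq_zero_of_natDegree_lt (by rw [hQd]; exact h3), mul_zero,
            sub_zero]
        · have : N = d := by omega
          rw [this, RR_coeff_top, hQ1, mul_one, sub_self]
      omega
  have h3 := congrArg (fun q : (ZMod p)[X] => q.coeff (d - 1)) hS
  simp only [coeff_sub, coeff_C_mul, coeff_zero] at h3
  rw [RR_coeff_pred A hd, hA, hQ2] at h3
  have h4 : ∑ i ∈ range d, ((d + 1 + i : ℕ) : ZMod p) =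
      ((d * (d + 1) : ℕ) : ZMod p) + ∑ i ∈ range d, (i : ZMod p) := by
    simp only [Nat.cast_add, sum_add_distrib, sum_const, card_range, nsmul_eq_mul, Nat.cast_mul]
    ring
  rw [h4] at h3
  have h5 : A d * ((d * (d + 1) : ℕ) : ZMod p) = 0 := by linear_combination h3
  have h6 : ((d * (d + 1) : ℕ) : ZMod p) ≠ 0 := by
    rw [Nat.cast_mul]
    exact mul_ne_zero (nat_ne_zero (by omega) (by omega)) (nat_ne_zero (by omega) (by omega))
  have h7 : A d = 0 := (mul_eq_zero.mp h5).resolve_right h6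
  apply RR_zero
  rw [h7] at hS
  simpa using hS

end Pool.Agent.Q21.HP
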