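import Mathlib
import Pool.Agent.Q21.HP.Pade

/-!
The Hankel determinants of the numbers `(2^{2n} - 1) B_{2n} / (2n)!` modulo `p`.
-/

open Finset

namespace Pool.Agent.Q21.HP

open Pool.Agent.H332R2

variable {p : ℕ} [hp : Fact p.Prime]

/-- the exponential series modulo `p` -/
noncomputable def ee (p : ℕ) [Fact p.Prime] : PowerSeries (ZMod p) :=
  PowerSeries.mk fun n => (((n.factorial : ℕ)) : ZMod p)⁻¹

/-- `t/(e^t-1)` modulo `p` -/
noncomputable def CC (p : ℕ) [Fact p.Prime] : PowerSeries (ZMod p) :=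
  PowerSeries.mk fun n => cc p n

/-- the coefficients of `t tanh (t/2)` modulo `p` -/
noncomputable def tt (p : ℕ) [Fact p.Prime] (n : ℕ) : ZMod p :=
  if Even n then 2 * (2 ^ n - 1) * cc p n else 0

/-- `t tanh (t/2)` modulo `p` -/
noncomputable def TT (p : ℕ) [Fact p.Prime] : PowerSeries (ZMod p) :=
  PowerSeries.mk fun n => tt p n

lemma cc_odd {k : ℕ} (hk : Odd k) (h1 : k ≠ 1) : cc p k = 0 := by
  unfold cc
  rw [bernoulli_eq_zero_of_odd hk (by rcases hk with ⟨m, rfl⟩; omega)]
  simp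

lemma two_ne (h3 : 3 ≤ p) : (2 : ZMod p) ≠ 0 := by
  have := nat_ne_zero (p := p) (k := 2) (by norm_num) (by omega)
  exact_mod_cast this

lemma cc_one (h3 : 3 ≤ p) : cc p 1 = -(2 : ZMod p)⁻¹ := by
  have h := cc_rec (p := p) (m := 2) le_rfl h3
  rw [sum_range_succ, sum_range_one, cc_zero] at h
  simp at h
  linear_combination h

lemma CC_dvd : (PowerSeries.X : PowerSeries (ZMod p)) ^ p ∣ CC p * (ee p - 1) - PowerSeries.X := by
  rw [PowerSeries.X_pow_dvd_iff]
  intro n hn
  have hL : PowerSeries.coeff n (CC p * (ee p - 1)) =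
      ∑ k ∈ range n, cc p k * (((n - k).factorial : ℕ) : ZMod p)⁻¹ := by
    rw [PowerSeries.coeff_mul, Nat.sum_antidiagonal_eq_sum_range_succ
      (fun i j => PowerSeries.coeff i (CC p) * PowerSeries.coeff j (ee p - 1)), sum_range_succ]
    have h0 : PowerSeries.coeff (n - n) (ee p - 1) = 0 := by
      rw [Nat.sub_self, map_sub]
      simp [ee, PowerSeries.coeff_mk]
    rw [h0, mul_zero, add_zero]
    refine sum_congr rfl fun k hk => ?_
    rw [mem_range] at hk
    have h1 : PowerSeries.coeff (n - k) (1 : PowerSeries (ZMod p)) = 0 := by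
      rw [PowerSeries.coeff_one, if_neg (by omega)]
    rw [map_sub, h1, sub_zero]
    simp [CC, ee, PowerSeries.coeff_mk]
  rw [map_sub, hL, PowerSeries.coeff_X]
  rcases Nat.lt_or_ge n 2 with h | h
  · interval_cases n
    · simp
    · rw [sum_range_one, cc_zero]
      simp
  · rw [if_neg (by omega), sub_zero]
    exact cc_rec h (by omega)

lemma ee_sq : (PowerSeries.X : PowerSeries (ZMod p)) ^ p ∣
    ee p * ee p - PowerSeries.rescale 2 (ee p) := by
  rw [PowerSeries.X_pow_dvd_iff]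
  intro n hn
  rw [map_sub, PowerSeries.coeff_mul, PowerSeries.coeff_rescale, sub_eq_zero]
  have h2 : (2 : ZMod p) ^ n = ∑ k ∈ range (n + 1), ((n.choose k : ℕ) : ZMod p) := by
    have := congrArg (fun a : ℕ => (a : ZMod p)) (Nat.sum_range_choose n)
    simp only [Nat.cast_sum, Nat.cast_pow, Nat.cast_ofNat] at this
    exact this.symm
  rw [h2, Nat.sum_antidiagonal_eq_sum_range_succ
      (fun i j => PowerSeries.coeff i (ee p) * PowerSeries.coeff j (ee p)), sum_mul]
  refine sum_congr rfl fun k hk => ?_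
  rw [mem_range] at hk
  simp only [ee, PowerSeries.coeff_mk]
  have h3 := Nat.choose_mul_factorial_mul_factorial (show k ≤ n by omega)
  have h4 : ((n.choose k : ℕ) : ZMod p) * ((k.factorial : ℕ) : ZMod p) *
      (((n - k).factorial : ℕ) : ZMod p) = ((n.factorial : ℕ) : ZMod p) := by
    exact_mod_cast congrArg (fun n : ℕ => (n : ZMod p)) h3
  have h5 := fact_ne_zero (p := p) (k := k) (by omega)
  have h6 := fact_ne_zero (p := p) (k := n - k) (by omega)
  have h7 := fact_ne_zero (p := p) (k := n) (by omega)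
  rw [← h4] at h7 ⊢
  have h8 : ((n.choose k : ℕ) : ZMod p) ≠ 0 := by
    intro h9
    rw [h9] at h7
    simp at h7
  field_simp

lemma TT_eq (h3 : 3 ≤ p) :
    TT p = PowerSeries.X - 2 * CC p + 2 * PowerSeries.rescale 2 (CC p) := by
  ext n
  have e2 : (2 : PowerSeries (ZMod p)) = PowerSeries.C (2 : ZMod p) := by
    rw [map_ofNat]
  rw [map_add, map_sub, e2, PowerSeries.coeff_C_mul, PowerSeries.coeff_C_mul,
    PowerSeries.coeff_rescale, PowerSeries.coeff_X]
  simp only [TT, CC, PowerSeries.coeff_mk]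
  unfold tt
  rcases Nat.even_or_odd n with hk | hk
  · rw [if_pos hk, if_neg (by rintro rfl; exact absurd hk (by decide))]
    ring
  · rw [if_neg (Nat.not_even_iff_odd.mpr hk)]
    by_cases h1 : n = 1
    · subst h1
      rw [if_pos rfl, cc_one h3]
      have := two_ne h3
      field_simp
      ring
    · rw [if_neg h1, cc_odd hk h1]
      ring

lemma ee_sub : ∃ u : PowerSeries (ZMod p), IsUnit u ∧ ee p - 1 = PowerSeries.X * u := by
  have h1 : (PowerSeries.X : PowerSeries (ZMod p)) ∣ ee p - 1 := by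
    rw [PowerSeries.X_dvd_iff, map_sub]
    simp [ee]
  obtain ⟨u, hu⟩ := h1
  refine ⟨u, ?_, hu⟩
  rw [PowerSeries.isUnit_iff_constantCoeff]
  have h2 := congrArg (PowerSeries.coeff 1) hu
  rw [PowerSeries.coeff_one_mul] at h2
  simp [ee, PowerSeries.coeff_one] at h2
  rw [← h2]
  exact isUnit_one

lemma TT_dvd (h3 : 3 ≤ p) : (PowerSeries.X : PowerSeries (ZMod p)) ^ (p - 1) ∣
    TT p * (ee p + 1) - PowerSeries.X * (ee p - 1) := by
  obtain ⟨a, ha⟩ := CC_dvd (p := p)
  obtain ⟨b, hb⟩ := ee_sq (p := p)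
  have hc := congrArg (PowerSeries.rescale (2 : ZMod p)) ha
  rw [map_sub, map_mul, map_sub, map_one, map_mul, map_pow] at hc
  have hX : PowerSeries.rescale (2 : ZMod p) PowerSeries.X = 2 * PowerSeries.X := by
    rw [PowerSeries.rescale_X, map_ofNat]
  rw [hX] at hc
  have e1 : (PowerSeries.X : PowerSeries (ZMod p)) ^ p ∣ (ee p - 1) *
      (TT p * (ee p + 1) - PowerSeries.X * (ee p - 1)) := by
    rw [TT_eq h3]
    refine ⟨-2 * a * (ee p + 1) + 2 * PowerSeries.rescale 2 (CC p) * b +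
      2 * 2 ^ p * PowerSeries.rescale 2 a, ?_⟩
    have hc' : PowerSeries.rescale 2 (CC p) * (PowerSeries.rescale 2 (ee p) - 1) =
      2 * PowerSeries.X + (2 * PowerSeries.X) ^ p * PowerSeries.rescale 2 a := by
      linear_combination hc
    rw [mul_pow] at hc'
    linear_combination (-2) * (ee p + 1) * ha + 2 * PowerSeries.rescale 2 (CC p) * hb + 2 * hc'
  obtain ⟨u, hu, hu'⟩ := ee_sub (p := p)
  rw [hu', mul_assoc] at e1
  have e2 : (PowerSeries.X : PowerSeries (ZMod p)) ^ p =
      PowerSeries.X * PowerSeries.X ^ (p - 1) := by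
    rw [← pow_succ']
    congr 1
    omega
  rw [e2] at e1
  have e3 := (mul_dvd_mul_iff_left PowerSeries.X_ne_zero).mp e1
  rw [← hu'] at e3
  exact hu.dvd_mul_left.mp e3

section

variable (t m : ℕ) (v : Fin m → ZMod p)

/-- the polynomial with coefficients `v` -/
noncomputable def VV : Polynomial (ZMod p) :=
  ∑ j : Fin m, Polynomial.C (v j) * Polynomial.X ^ (2 * (m - 1 - j))

lemma VV_coeff (n : ℕ) : (VV m v).coeff n = ∑ j : Fin m, if n = 2 * (m - 1 - j) then v j else 0 := by
  unfold VV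
  rw [Polynomial.finsetSum_coeff]
  refine sum_congr rfl fun j _ => ?_
  rw [Polynomial.coeff_C_mul, Polynomial.coeff_X_pow]
  split_ifs <;> simp

lemma VV_coeff_gt {n : ℕ} (h : 2 * m ≤ n + 1) : (VV m v).coeff n = 0 := by
  rw [VV_coeff]
  refine sum_eq_zero fun j _ => if_neg ?_
  have := j.2
  omega

lemma VV_coeff_self (j : Fin m) : (VV m v).coeff (2 * (m - 1 - j)) = v j := by
  rw [VV_coeff, sum_eq_single j]
  · simp
  · intro i _ hi
    apply if_neg
    intro h
    apply hi
    have := i.2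
    have := j.2
    apply Fin.ext
    omega
  · simp

/-- the product `V g` -/
noncomputable def WW : PowerSeries (ZMod p) := (VV m v : PowerSeries (ZMod p)) * TT p

lemma WW_coeff (n : ℕ) : PowerSeries.coeff n (WW m v) =
    ∑ j : Fin m, v j * (if 2 * (m - 1 - j) ≤ n then tt p (n - 2 * (m - 1 - j)) else 0) := by
  unfold WW VV
  rw [show ((∑ j : Fin m, Polynomial.C (v j) * Polynomial.X ^ (2 * (m - 1 - j)) :
    Polynomial (ZMod p)) : PowerSeries (ZMod p)) =
      ∑ j : Fin m, (PowerSeries.C (v j) * PowerSeries.X ^ (2 * (m - 1 - (j : ℕ)))) by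
    rw [← Polynomial.coeToPowerSeries.ringHom_apply, map_sum]
    refine sum_congr rfl fun j _ => ?_
    rw [map_mul, map_pow, Polynomial.coeToPowerSeries.ringHom_apply,
      Polynomial.coeToPowerSeries.ringHom_apply, Polynomial.coe_C, Polynomial.coe_X]]
  rw [sum_mul, map_sum]
  refine sum_congr rfl fun j _ => ?_
  rw [mul_assoc, PowerSeries.coeff_C_mul, PowerSeries.coeff_X_pow_mul']
  congr 1
  split_ifs <;> simp_all [TT, PowerSeries.coeff_mk]

lemma tt_odd {n : ℕ} (h : Odd n) : tt p n = 0 := if_neg (Nat.not_even_iff_odd.mpr h)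

lemma WW_odd {n : ℕ} (h : Odd n) : PowerSeries.coeff n (WW m v) = 0 := by
  rw [WW_coeff]
  refine sum_eq_zero fun j _ => ?_
  split_ifs with h1
  · rw [tt_odd, mul_zero]
    rcases h with ⟨a, rfl⟩
    exact ⟨a - (m - 1 - j), by omega⟩
  · rw [mul_zero]

lemma WW_zero : PowerSeries.coeff 0 (WW m v) = 0 := by
  rw [WW_coeff]
  refine sum_eq_zero fun j _ => ?_
  split_ifs with h1
  · have : 0 - 2 * (m - 1 - (j : ℕ)) = 0 := by omega
    rw [this]
    simp [tt]
  · rw [mul_zero]

/-- the truncation -/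
noncomputable def UU : Polynomial (ZMod p) := PowerSeries.trunc (2 * m + 2 * t - 1) (WW m v)

lemma UU_coeff (n : ℕ) : (UU t m v).coeff n =
    if n < 2 * m + 2 * t - 1 then PowerSeries.coeff n (WW m v) else 0 := by
  unfold UU
  rw [PowerSeries.coeff_trunc]

variable (hv : ∀ i : Fin m, ∑ j : Fin m, tt p (2 * (i + j + t + 1)) * v j = 0)

include hv in
lemma vanish {n : ℕ} (h1 : 2 * m + 2 * t - 1 ≤ n) (h2 : n < 4 * m + 2 * t) :
    PowerSeries.coeff n (WW m v) = 0 := by
  rcases Nat.even_or_odd' n with ⟨N, h | h⟩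
  · subst h
    have h3 := hv ⟨N - m - t, by omega⟩
    rw [WW_coeff, ← h3]
    refine sum_congr rfl fun j _ => ?_
    have hj := j.2
    rw [if_pos (by omega), mul_comm]
    congr 2
    simp only
    omega
  · exact WW_odd m v ⟨N, h⟩

include hv in
lemma diff_dvd : (PowerSeries.X : PowerSeries (ZMod p)) ^ (4 * m + 2 * t) ∣
    WW m v - (UU t m v : PowerSeries (ZMod p)) := by
  rw [PowerSeries.X_pow_dvd_iff]
  intro n hn
  rw [map_sub, Polynomial.coeff_coe, UU_coeff]
  split_ifs with h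
  · rw [sub_self]
  · rw [vanish t m v hv (by omega) hn, sub_zero]

/-- first polynomial -/
noncomputable def AA : Polynomial (ZMod p) := Polynomial.X * VV m v - UU t m v

/-- second polynomial -/
noncomputable def BB : Polynomial (ZMod p) := -(Polynomial.X * VV m v + UU t m v)

include hv in
lemma order_dvd (h3 : 3 ≤ p) (hp' : 4 * m + 2 * t + 1 ≤ p) :
    (PowerSeries.X : PowerSeries (ZMod p)) ^ (4 * m + 2 * t) ∣
      (AA t m v : PowerSeries (ZMod p)) * ee p + (BB t m v : PowerSeries (ZMod p)) := by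
  have e : (AA t m v : PowerSeries (ZMod p)) * ee p + (BB t m v : PowerSeries (ZMod p)) =
      (WW m v - (UU t m v : PowerSeries (ZMod p))) * (ee p + 1) -
      (VV m v : PowerSeries (ZMod p)) *
        (TT p * (ee p + 1) - PowerSeries.X * (ee p - 1)) := by
    unfold AA BB WW
    rw [Polynomial.coe_sub, Polynomial.coe_neg, Polynomial.coe_add, Polynomial.coe_mul,
      Polynomial.coe_X]
    ring
  rw [e]
  apply dvd_sub
  · exact Dvd.dvd.mul_right (diff_dvd t m v hv) _
  · exact Dvd.dvd.mul_left ((pow_dvd_pow _ (by omega)).trans (TT_dvd h3)) _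

lemma AA_zero : (AA t m v).coeff 0 = 0 := by
  unfold AA
  rw [Polynomial.coeff_sub, UU_coeff, WW_zero, ite_self, sub_zero, Polynomial.mul_coeff_zero]
  simp

include hv in
theorem zero_of_kernel (ht : t ≤ 2) (hm : 1 ≤ m) (hp' : 4 * m + 2 * t + 1 ≤ p) : v = 0 := by
  have h3 : 3 ≤ p := by omega
  have hdvd := PowerSeries.X_pow_dvd_iff.mp (order_dvd t m v hv h3 hp')
  -- degrees
  have hA : ∀ n, 2 * m ≤ n → 2 * m + 2 * t - 1 ≤ n → (AA t m v).coeff n = 0 := by
    intro n h1 h2
    unfold AA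
    rw [Polynomial.coeff_sub, UU_coeff, if_neg (by omega), sub_zero]
    obtain ⟨k, rfl⟩ : ∃ k, n = k + 1 := ⟨n - 1, by omega⟩
    rw [Polynomial.coeff_X_mul, VV_coeff_gt m v (by omega)]
  have hB : ∀ n, 2 * m ≤ n → 2 * m + 2 * t - 1 ≤ n → (BB t m v).coeff n = 0 := by
    intro n h1 h2
    unfold BB
    rw [Polynomial.coeff_neg, Polynomial.coeff_add, UU_coeff, if_neg (by omega), add_zero]
    obtain ⟨k, rfl⟩ : ∃ k, n = k + 1 := ⟨n - 1, by omega⟩
    rw [Polynomial.coeff_X_mul, VV_coeff_gt m v (by omega), neg_zero]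
  -- the relations
  have hrel : ∀ d, (2 * m ≤ d + 2) → (2 * m + 2 * t - 1 ≤ d + 2) → ∀ n, d < n →
      n < 4 * m + 2 * t - 1 →
      ∑ k ∈ range (d + 1), (AA t m v).coeff (k + 1) *
        ((((n - k).factorial : ℕ) : ZMod p))⁻¹ = 0 := by
    intro d h1 h2 n hdn hn
    have h4 := hdvd (n + 1) (by omega)
    rw [map_add, Polynomial.coeff_coe, hB (n + 1) (by omega) (by omega), add_zero,
      PowerSeries.coeff_mul, Nat.sum_antidiagonal_eq_sum_range_succ (fun i j =>
        PowerSeries.coeff i (AA t m v : PowerSeries (ZMod p)) * PowerSeries.coeff j (ee p)),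
      sum_range_succ', Polynomial.coeff_coe, AA_zero, zero_mul, add_zero] at h4
    rw [← h4]
    apply sum_subset_zero_on_sdiff (range_subset_range.mpr (by omega))
    · intro k hk
      rw [mem_sdiff, mem_range, mem_range] at hk
      rw [Polynomial.coeff_coe, hA (k + 1) (by omega) (by omega), zero_mul]
    · intro k hk
      rw [Polynomial.coeff_coe]
      simp [ee, PowerSeries.coeff_mk]
  -- all coefficients vanish
  have hall : ∀ k, k < 2 * m - 1 → (AA t m v).coeff (k + 1) = 0 := by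
    interval_cases t
    · intro k hk
      exact pade0 (fun k => (AA 0 m v).coeff (k + 1)) (2 * m - 2) (4 * m + 2 * 0 - 1) (by omega)
        (by omega) (hrel (2 * m - 2) (by omega) (by omega)) k (by omega)
    · intro k hk
      exact pade0 (fun k => (AA 1 m v).coeff (k + 1)) (2 * m - 1) (4 * m + 2 * 1 - 1) (by omega)
        (by omega) (hrel (2 * m - 1) (by omega) (by omega)) k (by omega)
    · intro k hk
      refine pade1 (fun k => (AA 2 m v).coeff (k + 1)) (2 * m + 1) (4 * m + 2 * 2 - 1) (by omega)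
        (by omega) (by omega) (hrel (2 * m + 1) (by omega) (by omega)) ?_ k (by omega)
      unfold AA
      have e : 2 * m + 1 - 1 + 1 = 2 * m + 1 := by omega
      rw [e, Polynomial.coeff_sub, UU_coeff, Polynomial.coeff_X_mul,
        VV_coeff_gt m v (by omega), zero_sub, neg_eq_zero]
      split_ifs
      · exact WW_odd m v ⟨m, rfl⟩
      · rfl
  funext j
  have hj := j.2
  have h5 := hall (2 * (m - 1 - j)) (by omega)
  unfold AA at h5
  rw [Polynomial.coeff_sub, Polynomial.coeff_X_mul, VV_coeff_self,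
    UU_coeff, WW_odd m v ⟨m - 1 - j, rfl⟩, ite_self, sub_zero] at h5
  exact h5

end

/-- the Hankel matrix -/
noncomputable def HH (p : ℕ) [Fact p.Prime] (t m : ℕ) : Matrix (Fin m) (Fin m) (ZMod p) :=
  fun i j => tt p (2 * (i + j + t + 1))

theorem det_ne_zero (t m : ℕ) (ht : t ≤ 2) (hp' : 4 * m + 2 * t + 1 ≤ p) :
    (HH p t m).det ≠ 0 := by
  intro h
  obtain ⟨v, hv0, hv⟩ := Matrix.exists_mulVec_eq_zero_iff.mpr h
  rcases Nat.eq_zero_or_pos m with hm | hm
  · subst hm
    exact hv0 (Subsingleton.elim _ _)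
  · apply hv0
    apply zero_of_kernel t m v _ ht hm hp'
    intro i
    exact congrFun hv i

theorem exists_perm (t m : ℕ) (ht : t ≤ 2) (hp' : 4 * m + 2 * t + 1 ≤ p) :
    ∃ σ : Equiv.Perm (Fin m), ∀ i : Fin m, tt p (2 * (i + σ i + t + 1)) ≠ 0 := by
  by_contra hcon
  push Not at hcon
  apply det_ne_zero (p := p) t m ht hp'
  rw [Matrix.det_apply]
  apply sum_eq_zero
  intro σ _
  obtain ⟨i, hi⟩ := hcon σ
  rw [prod_eq_zero (mem_univ i), smul_zero]
  rw [← hi]
  unfold HH
  congr 2
  omega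

lemma tt_ne {N : ℕ} (h : tt p (2 * N) ≠ 0) (hN : 2 * N + 3 ≤ p) :
    ¬ ((p : ℤ) ∣ (bernoulli (2 * N)).num) ∧ ¬ (p ∣ 2 ^ (2 * N) - 1) := by
  unfold tt at h
  rw [if_pos (even_two_mul N)] at h
  constructor
  · rw [← cc_eq_zero_iff (by omega) (by omega)]
    exact right_ne_zero_of_mul h
  · intro h1
    apply right_ne_zero_of_mul (left_ne_zero_of_mul h)
    rw [← ZMod.natCast_eq_zero_iff, Nat.cast_sub Nat.one_le_two_pow] at h1
    push_cast at h1
    exact h1

end Pool.Agent.Q21.HP
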